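import Pool.Agent.H102R3.FR.Stmts

/-! Task Cut of project H102-FR (helper128). -/

set_option autoImplicit false

namespace Pool.Agent.H102R3.FR

open MeasureTheory

namespace CutAux

section
variable {V : Type} [Fintype V] [DecidableEq V] (G : SimpleGraph V) [DecidableRel G.Adj]

theorem stay_nonneg (A : Finset V) : ∀ j x, 0 ≤ stay G A j x := by
  intro j
  induction j with
  | zero => intro x; simp only [stay]; split_ifs <;> norm_num
  | succ j ih =>
    intro x
    simp only [stay]
    split_ifs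
    · exact div_nonneg (Finset.sum_nonneg fun y _ => ih y) (Nat.cast_nonneg _)
    · exact le_rfl

theorem stay_off (A : Finset V) (j : ℕ) (x : V) (hx : x ∉ A) : stay G A j x = 0 := by
  cases j <;> simp [stay, hx]

theorem stay_zero (A : Finset V) (x : V) (hx : x ∈ A) : stay G A 0 x = 1 := by
  simp [stay, hx]

theorem stay_step (hdeg : ∀ x, 0 < G.degree x) (A : Finset V) (j : ℕ) (x : V) (hx : x ∈ A) :
    (G.degree x : ℝ) * stay G A (j + 1) x = ∑ y ∈ G.neighborFinset x, stay G A j y := by
  have h : (G.degree x : ℝ) ≠ 0 := by exact_mod_cast (hdeg x).ne'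
  simp only [stay, hx, if_true]
  field_simp

theorem stay_le_one (hdeg : ∀ x, 0 < G.degree x) (A : Finset V) :
    ∀ j x, stay G A j x ≤ 1 := by
  intro j
  induction j with
  | zero => intro x; simp only [stay]; split_ifs <;> norm_num
  | succ j ih =>
    intro x
    by_cases hx : x ∈ A
    · have h := stay_step G hdeg A j x hx
      have hd : (0 : ℝ) < G.degree x := by exact_mod_cast hdeg x
      have h2 : ∑ y ∈ G.neighborFinset x, stay G A j y ≤ ∑ y ∈ G.neighborFinset x, (1 : ℝ) :=
        Finset.sum_le_sum fun y _ => ih y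
      rw [Finset.sum_const, SimpleGraph.card_neighborFinset_eq_degree, nsmul_eq_mul, mul_one,
        ← h] at h2
      nlinarith
    · rw [stay_off G A _ x hx]; exact zero_le_one

theorem stay_succ_le (hdeg : ∀ x, 0 < G.degree x) (A : Finset V) :
    ∀ j x, stay G A (j + 1) x ≤ stay G A j x := by
  intro j
  induction j with
  | zero =>
    intro x
    by_cases hx : x ∈ A
    · rw [stay_zero G A x hx]; exact stay_le_one G hdeg A _ _
    · rw [stay_off G A _ x hx, stay_off G A _ x hx]
  | succ j ih =>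
    intro x
    by_cases hx : x ∈ A
    · have h := stay_step G hdeg A j x hx
      have h1 := stay_step G hdeg A (j + 1) x hx
      have hd : (0 : ℝ) < G.degree x := by exact_mod_cast hdeg x
      have h2 : ∑ y ∈ G.neighborFinset x, stay G A (j + 1) y ≤
          ∑ y ∈ G.neighborFinset x, stay G A j y := Finset.sum_le_sum fun y _ => ih y
      rw [← h, ← h1] at h2
      exact le_of_mul_le_mul_left h2 hd
    · rw [stay_off G A _ x hx, stay_off G A _ x hx]

theorem stay_anti (hdeg : ∀ x, 0 < G.degree x) (A : Finset V) (x : V) :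
    Antitone (fun j => stay G A j x) :=
  antitone_nat_of_succ_le fun j => stay_succ_le G hdeg A j x

/-- ordered adjacent pairs -/
def Pr : Finset (V × V) := Finset.univ.filter (fun e => G.Adj e.1 e.2)

theorem sum_Pr (f : V → V → ℝ) :
    ∑ e ∈ Pr G, f e.1 e.2 = ∑ x, ∑ y ∈ G.neighborFinset x, f x y := by
  unfold Pr
  rw [Finset.sum_filter, Fintype.sum_prod_type]
  refine Finset.sum_congr rfl fun x _ => ?_
  rw [SimpleGraph.neighborFinset_eq_filter, Finset.sum_filter]

theorem sum_Pr_swap (f : V → V → ℝ) :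
    ∑ e ∈ Pr G, f e.1 e.2 = ∑ e ∈ Pr G, f e.2 e.1 := by
  refine Finset.sum_nbij' Prod.swap Prod.swap ?_ ?_ ?_ ?_ ?_
  · intro e he
    simp only [Pr, Finset.mem_filter, Finset.mem_univ, true_and, Prod.fst_swap,
      Prod.snd_swap] at he ⊢
    exact he.symm
  · intro e he
    simp only [Pr, Finset.mem_filter, Finset.mem_univ, true_and, Prod.fst_swap,
      Prod.snd_swap] at he ⊢
    exact he.symm
  · intro e _; simp
  · intro e _; simp
  · intro e _; simp

theorem energy (h : V → ℝ) :
    ∑ e ∈ Pr G, (h e.1 - h e.2) ^ 2 =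
      2 * ∑ x, h x * ((G.degree x : ℝ) * h x - ∑ y ∈ G.neighborFinset x, h y) := by
  have h1 : ∑ e ∈ Pr G, (h e.1 - h e.2) ^ 2 =
      ∑ e ∈ Pr G, (h e.1 ^ 2) - 2 * ∑ e ∈ Pr G, (h e.1 * h e.2) + ∑ e ∈ Pr G, (h e.2 ^ 2) := by
    rw [Finset.mul_sum, ← Finset.sum_sub_distrib, ← Finset.sum_add_distrib]
    refine Finset.sum_congr rfl fun e _ => ?_
    ring
  have h2 := sum_Pr_swap G (fun x _ => h x ^ 2)
  have h3 := sum_Pr G (fun x _ => h x ^ 2)
  have h4 := sum_Pr G (fun x y => h x * h y)
  rw [h1, ← h2, h3, h4, Finset.mul_sum, Finset.mul_sum, ← Finset.sum_sub_distrib,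
    ← Finset.sum_add_distrib]
  refine Finset.sum_congr rfl fun x _ => ?_
  rw [Finset.sum_const, SimpleGraph.card_neighborFinset_eq_degree, nsmul_eq_mul, ← Finset.mul_sum]
  ring

end

end CutAux

open CutAux in
theorem taskCut : TaskCut := by
  intro V _ _ G _ hdeg A s hs
  have hs0 : (0 : ℝ) < s := by exact_mod_cast hs
  set h : V → ℝ := fun x => (∑ j ∈ Finset.range s, stay G A j x) / s with hh
  have hnn : ∀ x, 0 ≤ h x := fun x =>
    div_nonneg (Finset.sum_nonneg fun j _ => stay_nonneg G A j x) hs0.le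
  have hle : ∀ x, h x ≤ 1 := by
    intro x
    rw [hh]
    simp only
    rw [div_le_one hs0]
    calc ∑ j ∈ Finset.range s, stay G A j x ≤ ∑ j ∈ Finset.range s, (1 : ℝ) :=
          Finset.sum_le_sum fun j _ => stay_le_one G hdeg A j x
      _ = s := by simp
  have hoff : ∀ x, x ∉ A → h x = 0 := by
    intro x hx
    simp only [hh]
    rw [Finset.sum_eq_zero (fun j _ => stay_off G A j x hx), zero_div]
  have hps : ∀ x, stay G A s x ≤ h x := by
    intro x
    simp only [hh]
    rw [le_div_iff₀ hs0]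
    calc stay G A s x * s = ∑ j ∈ Finset.range s, stay G A s x := by simp [mul_comm]
      _ ≤ ∑ j ∈ Finset.range s, stay G A j x :=
          Finset.sum_le_sum fun j hj =>
            stay_anti G hdeg A x (Finset.mem_range.mp hj).le
  have hlap : ∀ x ∈ A, (G.degree x : ℝ) * h x - ∑ y ∈ G.neighborFinset x, h y =
      (G.degree x : ℝ) * (1 - stay G A s x) / s := by
    intro x hx
    have h1 : ∑ y ∈ G.neighborFinset x, h y =
        (∑ j ∈ Finset.range s, (G.degree x : ℝ) * stay G A (j + 1) x) / s := by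
      simp only [hh]
      rw [← Finset.sum_div, Finset.sum_comm]
      congr 1
      exact Finset.sum_congr rfl fun j _ => (stay_step G hdeg A j x hx).symm
    rw [h1]
    simp only [hh]
    rw [mul_div_assoc', ← sub_div, Finset.mul_sum, ← Finset.sum_sub_distrib,
      Finset.sum_range_sub', stay_zero G A x hx]
    ring
  have hescnn : 0 ≤ esc G A s := Finset.sum_nonneg fun x _ =>
    mul_nonneg (Nat.cast_nonneg _) (sub_nonneg.mpr (stay_le_one G hdeg A s x))
  have hen : ∑ e ∈ Pr G, (h e.1 - h e.2) ^ 2 ≤ 2 * (esc G A s / s) := by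
    rw [energy]
    refine mul_le_mul_of_nonneg_left ?_ (by norm_num)
    have h1 : ∑ x, h x * ((G.degree x : ℝ) * h x - ∑ y ∈ G.neighborFinset x, h y) =
        ∑ x ∈ A, h x * ((G.degree x : ℝ) * h x - ∑ y ∈ G.neighborFinset x, h y) := by
      symm
      apply Finset.sum_subset (Finset.subset_univ _)
      intro x _ hx
      rw [hoff x hx, zero_mul]
    rw [h1, esc, Finset.sum_div]
    refine Finset.sum_le_sum fun x hx => ?_
    rw [hlap x hx]
    have h2 : 0 ≤ (G.degree x : ℝ) * (1 - stay G A s x) / s :=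
      div_nonneg (mul_nonneg (Nat.cast_nonneg _) (sub_nonneg.mpr (stay_le_one G hdeg A s x)))
        hs0.le
    calc h x * ((G.degree x : ℝ) * (1 - stay G A s x) / s)
        ≤ 1 * ((G.degree x : ℝ) * (1 - stay G A s x) / s) :=
          mul_le_mul_of_nonneg_right (hle x) h2
      _ = _ := one_mul _
  set E : Finset (V × V) := (Pr G).filter (fun e => h e.2 ≤ 1 / 2 ∧ h e.2 < h e.1) with hE
  have hEen : ∑ e ∈ E, (h e.1 - h e.2) ^ 2 ≤ esc G A s / s := by
    have h1 : ∑ e ∈ E, (h e.1 - h e.2) ^ 2 ≤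
        ∑ e ∈ Pr G, (if h e.2 < h e.1 then (h e.1 - h e.2) ^ 2 else 0) := by
      rw [hE, Finset.sum_filter]
      refine Finset.sum_le_sum fun e _ => ?_
      by_cases h1 : h e.2 < h e.1
      · simp only [h1, and_true, if_true]
        split_ifs
        · exact le_rfl
        · positivity
      · simp [h1]
    have h2 := sum_Pr_swap G (fun x y => if h y < h x then (h x - h y) ^ 2 else 0)
    have h3 : ∑ e ∈ Pr G, (if h e.2 < h e.1 then (h e.1 - h e.2) ^ 2 else 0) +
        ∑ e ∈ Pr G, (if h e.1 < h e.2 then (h e.2 - h e.1) ^ 2 else 0) ≤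
        ∑ e ∈ Pr G, (h e.1 - h e.2) ^ 2 := by
      rw [← Finset.sum_add_distrib]
      refine Finset.sum_le_sum fun e _ => ?_
      rcases lt_trichotomy (h e.1) (h e.2) with h1 | h1 | h1
      · simp only [h1, if_true, not_lt.mpr h1.le, if_false, zero_add]
        apply le_of_eq; ring
      · simp [h1]
      · simp only [h1, if_true, not_lt.mpr h1.le, if_false, add_zero]
        exact le_rfl
    linarith
  have hEcard : (E.card : ℝ) ≤ 3 * esc G A s := by
    have h1 : (E.card : ℝ) ≤ ∑ e ∈ Pr G, (if e.2 ∈ A ∧ h e.2 ≤ 1 / 2 then (1 : ℝ) else 0) +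
        ∑ e ∈ Pr G, (if e.1 ∈ A ∧ e.2 ∉ A then (1 : ℝ) else 0) := by
      rw [Finset.card_eq_sum_ones, Nat.cast_sum, hE, Finset.sum_filter, ← Finset.sum_add_distrib]
      refine Finset.sum_le_sum fun e _ => ?_
      by_cases hc : h e.2 ≤ 1 / 2 ∧ h e.2 < h e.1
      · rw [if_pos hc]
        by_cases h2 : e.2 ∈ A
        · rw [if_pos ⟨h2, hc.1⟩]
          have : (0 : ℝ) ≤ if e.1 ∈ A ∧ e.2 ∉ A then (1 : ℝ) else 0 := by
            split_ifs <;> norm_num
          push_cast
          linarith
        · have h3 : e.1 ∈ A := by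
            by_contra h3
            have := hoff _ h3
            have := hnn e.2
            linarith [hc.2]
          rw [if_pos (⟨h3, h2⟩ : e.1 ∈ A ∧ e.2 ∉ A), if_neg (fun h => h2 h.1)]
          push_cast
          linarith
      · rw [if_neg hc]
        have h4 : (0 : ℝ) ≤ if e.1 ∈ A ∧ e.2 ∉ A then (1 : ℝ) else 0 := by
          split_ifs <;> norm_num
        have h5 : (0 : ℝ) ≤ if e.2 ∈ A ∧ h e.2 ≤ 1 / 2 then (1 : ℝ) else 0 := by
          split_ifs <;> norm_num
        linarith
    have h2 : ∑ e ∈ Pr G, (if e.2 ∈ A ∧ h e.2 ≤ 1 / 2 then (1 : ℝ) else 0) ≤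
        2 * esc G A s := by
      have h3 := sum_Pr_swap G (fun x _ => if x ∈ A ∧ h x ≤ 1 / 2 then (1 : ℝ) else 0)
      have h4 := sum_Pr G (fun x _ => if x ∈ A ∧ h x ≤ 1 / 2 then (1 : ℝ) else 0)
      rw [← h3, h4]
      have h5 : ∑ x, ∑ y ∈ G.neighborFinset x, (if x ∈ A ∧ h x ≤ 1 / 2 then (1 : ℝ) else 0) =
          ∑ x ∈ A, (if h x ≤ 1 / 2 then (G.degree x : ℝ) else 0) := by
        rw [← Finset.sum_filter_add_sum_filter_not Finset.univ (fun x => x ∈ A)]
        have h6 : ∑ x ∈ Finset.univ.filter (fun x => x ∉ A), ∑ y ∈ G.neighborFinset x,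
            (if x ∈ A ∧ h x ≤ 1 / 2 then (1 : ℝ) else 0) = 0 := by
          refine Finset.sum_eq_zero fun x hx => ?_
          rw [Finset.mem_filter] at hx
          simp [hx.2]
        rw [h6, add_zero]
        have h7 : Finset.univ.filter (fun x => x ∈ A) = A := by ext x; simp
        rw [h7]
        refine Finset.sum_congr rfl fun x hx => ?_
        rw [Finset.sum_const, SimpleGraph.card_neighborFinset_eq_degree, nsmul_eq_mul]
        simp [hx]
      rw [h5, esc, Finset.mul_sum]
      refine Finset.sum_le_sum fun x hx => ?_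
      have hd : (0 : ℝ) ≤ G.degree x := Nat.cast_nonneg _
      split_ifs with h6
      · have h7 := (hps x).trans h6
        nlinarith
      · have := stay_le_one G hdeg A s x
        exact mul_nonneg (by norm_num) (mul_nonneg hd (by linarith))
    have h3 : ∑ e ∈ Pr G, (if e.1 ∈ A ∧ e.2 ∉ A then (1 : ℝ) else 0) ≤ esc G A s := by
      have h4 := sum_Pr G (fun x y => if x ∈ A ∧ y ∉ A then (1 : ℝ) else 0)
      rw [h4]
      have h5 : ∑ x, ∑ y ∈ G.neighborFinset x, (if x ∈ A ∧ y ∉ A then (1 : ℝ) else 0) =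
          ∑ x ∈ A, (G.degree x : ℝ) * (1 - stay G A 1 x) := by
        rw [← Finset.sum_filter_add_sum_filter_not Finset.univ (fun x => x ∈ A)]
        have h6 : ∑ x ∈ Finset.univ.filter (fun x => x ∉ A), ∑ y ∈ G.neighborFinset x,
            (if x ∈ A ∧ y ∉ A then (1 : ℝ) else 0) = 0 := by
          refine Finset.sum_eq_zero fun x hx => ?_
          rw [Finset.mem_filter] at hx
          simp [hx.2]
        rw [h6, add_zero]
        have h7 : Finset.univ.filter (fun x => x ∈ A) = A := by ext x; simp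
        rw [h7]
        refine Finset.sum_congr rfl fun x hx => ?_
        rw [mul_sub, mul_one, show (1 : ℕ) = 0 + 1 from rfl, stay_step G hdeg A 0 x hx]
        have h8 : (G.degree x : ℝ) = ∑ y ∈ G.neighborFinset x, (1 : ℝ) := by
          rw [Finset.sum_const, SimpleGraph.card_neighborFinset_eq_degree, nsmul_eq_mul, mul_one]
        rw [h8, ← Finset.sum_sub_distrib]
        refine Finset.sum_congr rfl fun y _ => ?_
        by_cases hy : y ∈ A
        · simp [hy, stay]
        · simp [hx, hy, stay]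
      rw [h5, esc]
      refine Finset.sum_le_sum fun x _ => ?_
      have := stay_anti G hdeg A x hs
      simp only at this
      exact mul_le_mul_of_nonneg_left (by linarith) (Nat.cast_nonneg _)
    linarith
  have hCS : (∑ e ∈ E, (h e.1 - h e.2)) ^ 2 ≤ (3 * esc G A s) * (esc G A s / s) := by
    refine (sq_sum_le_card_mul_sum_sq).trans ?_
    exact mul_le_mul hEcard hEen (Finset.sum_nonneg fun e _ => sq_nonneg _) (by positivity)
  -- the averaging
  set f : ℝ → ℝ := fun l => ∑ e ∈ Pr G, (Set.Ico (h e.2) (h e.1)).indicator 1 l with hf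
  have hint : ∀ e ∈ Pr G, IntegrableOn (fun l : ℝ =>
      (Set.Ico (h e.2) (h e.1)).indicator (1 : ℝ → ℝ) l) (Set.Icc (1/4 : ℝ) (1/2)) volume := by
    intro e _
    have hfin : IntegrableOn (1 : ℝ → ℝ) (Set.Icc (1/4 : ℝ) (1/2)) volume :=
      (continuous_const (y := (1:ℝ))).continuousOn.integrableOn_compact isCompact_Icc
    exact hfin.indicator measurableSet_Ico
  obtain ⟨l, hl, hfl⟩ := exists_le_setAverage (μ := volume) (s := Set.Icc (1/4 : ℝ) (1/2))
    (f := f) (by rw [Real.volume_Icc]; norm_num) (by rw [Real.volume_Icc]; exact ENNReal.ofReal_ne_top)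
    (integrable_finsetSum _ hint)
  have hvol : volume.real (Set.Icc (1/4 : ℝ) (1/2)) = 1 / 4 := by
    rw [Real.volume_real_Icc]; norm_num
  have hI : ∫ l in Set.Icc (1/4 : ℝ) (1/2), f l = ∑ e ∈ Pr G,
      (volume.restrict (Set.Icc (1/4 : ℝ) (1/2))).real (Set.Ico (h e.2) (h e.1)) := by
    rw [hf, integral_finsetSum _ hint]
    refine Finset.sum_congr rfl fun e _ => ?_
    exact integral_indicator_one measurableSet_Ico
  have hI2 : ∫ l in Set.Icc (1/4 : ℝ) (1/2), f l ≤ ∑ e ∈ E, (h e.1 - h e.2) := by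
    rw [hI, hE, Finset.sum_filter]
    refine Finset.sum_le_sum fun e _ => ?_
    split_ifs with hc
    · have h1 : (volume.restrict (Set.Icc (1/4 : ℝ) (1/2))).real (Set.Ico (h e.2) (h e.1)) ≤
          volume.real (Set.Ico (h e.2) (h e.1)) := by
        refine ENNReal.toReal_mono ?_ (Measure.restrict_apply_le _ _)
        rw [Real.volume_Ico]; exact ENNReal.ofReal_ne_top
      rw [Real.volume_real_Ico_of_le hc.2.le] at h1
      exact h1
    · apply le_of_eq
      rw [measureReal_def, Measure.restrict_apply measurableSet_Ico]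
      have h1 : Set.Ico (h e.2) (h e.1) ∩ Set.Icc (1/4 : ℝ) (1/2) = ∅ := by
        ext t
        simp only [Set.mem_inter_iff, Set.mem_Ico, Set.mem_Icc, Set.mem_empty_iff_false,
          iff_false]
        rintro ⟨⟨h1, h2⟩, h3, h4⟩
        exact hc ⟨h1.trans h4, lt_of_le_of_lt h1 h2⟩
      rw [h1, measure_empty, ENNReal.toReal_zero]
  have hfl2 : f l ≤ 4 * ∑ e ∈ E, (h e.1 - h e.2) := by
    rw [setAverage_eq, hvol, smul_eq_mul] at hfl
    linarith
  refine ⟨A.filter (fun x => h x ≤ l), Finset.filter_subset _ _, ?_, ?_⟩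
  · intro x hx
    rw [Finset.mem_filter] at hx
    exact (hps x).trans (hx.2.trans hl.2)
  · have hbd : (bd G (A \ A.filter (fun x => h x ≤ l)) : ℝ) = f l := by
      have hmem : ∀ x, x ∈ A \ A.filter (fun x => h x ≤ l) ↔ l < h x := by
        intro x
        simp only [Finset.mem_sdiff, Finset.mem_filter, not_and, not_le]
        constructor
        · intro hx; exact hx.2 hx.1
        · intro hx
          refine ⟨?_, fun _ => hx⟩
          by_contra hA
          rw [hoff x hA] at hx
          linarith [hl.1]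
      rw [bd, Finset.card_eq_sum_ones, Nat.cast_sum, hf]
      simp only [hmem]
      rw [Pr, Finset.sum_filter, Finset.sum_filter]
      refine Finset.sum_congr rfl fun e _ => ?_
      by_cases hadj : G.Adj e.1 e.2
      · by_cases h1 : l < h e.1
        · by_cases h2 : l < h e.2
          · simp [hadj, h1, h2, Set.indicator, not_le.mpr h2]
          · simp [hadj, h1, Set.indicator, not_lt.mp h2]
        · simp [h1, Set.indicator]
      · simp [hadj]
    rw [hbd]
    have hS0 : 0 ≤ ∑ e ∈ E, (h e.1 - h e.2) := by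
      refine Finset.sum_nonneg fun e he => ?_
      rw [hE, Finset.mem_filter] at he
      linarith [he.2.2]
    have hsq : Real.sqrt s ^ 2 = s := Real.sq_sqrt hs0.le
    have hsp : 0 < Real.sqrt s := Real.sqrt_pos.mpr hs0
    have hfin : Real.sqrt s * (4 * ∑ e ∈ E, (h e.1 - h e.2)) ≤ 7 * esc G A s := by
      refine abs_le_of_sq_le_sq' ?_ (by positivity) |>.2
      have h1 : (Real.sqrt s * (4 * ∑ e ∈ E, (h e.1 - h e.2))) ^ 2 =
          16 * (s * (∑ e ∈ E, (h e.1 - h e.2)) ^ 2) := by
        rw [mul_pow, hsq]; ring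
      have h2 : (s : ℝ) * (3 * esc G A s * (esc G A s / s)) = 3 * esc G A s ^ 2 := by
        field_simp
      have h3 := mul_le_mul_of_nonneg_left hCS hs0.le
      rw [h2] at h3
      rw [h1]
      nlinarith [sq_nonneg (esc G A s)]
    exact (mul_le_mul_of_nonneg_left hfl2 hsp.le).trans hfin

end Pool.Agent.H102R3.FR
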