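import Pool.Agent.H932R4.MO.Stmts

/-! Task T5a of project H932-MO (helper128). -/

set_option autoImplicit false

open Finset

namespace Pool.Agent.H932R4.MO

namespace T5aAux

theorem bw_nonneg (N₀ n : ℕ) : 0 ≤ bw N₀ n := by
  unfold bw
  split_ifs
  · exact Finset.prod_nonneg fun p _ => by positivity
  · exact le_rfl

theorem bw_mul (N₀ m q : ℕ) (hq : q.Prime) (h : bw N₀ (m * q) ≠ 0) :
    bw N₀ (m * q) = bw N₀ m * (1 / (Real.log q) ^ 2) := by
  classical
  by_cases hc : Squarefree (m * q) ∧ ∀ p ∈ (m * q).primeFactors, N₀ ≤ p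
  · have hcop : Nat.Coprime m q := Nat.coprime_of_squarefree_mul hc.1
    have hm0 : m ≠ 0 := by
      rintro rfl
      have := hc.1
      rw [zero_mul] at this
      exact not_squarefree_zero this
    have hpf : (m * q).primeFactors = m.primeFactors ∪ q.primeFactors :=
      hcop.primeFactors_mul
    have hsm : Squarefree m := hc.1.of_mul_left
    have hm : Squarefree m ∧ ∀ p ∈ m.primeFactors, N₀ ≤ p :=
      ⟨hsm, fun p hp => hc.2 p (by rw [hpf]; exact mem_union_left _ hp)⟩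
    have h1 : bw N₀ (m * q) = ∏ p ∈ (m * q).primeFactors, 1 / (Real.log p) ^ 2 := by
      unfold bw; rw [if_pos hc]
    have h2 : bw N₀ m = ∏ p ∈ m.primeFactors, 1 / (Real.log p) ^ 2 := by
      unfold bw; rw [if_pos hm]
    rw [h1, h2, hpf, Finset.prod_union hcop.disjoint_primeFactors, hq.primeFactors,
      Finset.prod_singleton]
  · exfalso
    apply h
    unfold bw
    rw [if_neg hc]

end T5aAux

open T5aAux in
theorem t5a : T5a := by
  classical
  intro hBT hT3 θ κ hθ hθ1 hκ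
  obtain ⟨Y₀, hY₀, hBT⟩ := hBT
  obtain ⟨N₁, hN₁, hT⟩ := hT3 (κ * θ / 48) (by positivity)
  refine ⟨N₁, hN₁, fun N₀ hN₀ => ?_⟩
  have hX1 : ∃ X₁ : ℕ, 3 ≤ X₁ ∧ ∀ X : ℕ, X₁ ≤ X → (Y₀ : ℝ) ≤ (X : ℝ) ^ (θ / 2) := by
    have h1 := ((tendsto_rpow_atTop (show 0 < θ / 2 by positivity)).comp
      (tendsto_natCast_atTop_atTop (R := ℝ))).eventually_ge_atTop (Y₀ : ℝ)
    obtain ⟨a, ha⟩ := Filter.eventually_atTop.mp h1
    exact ⟨max a 3, le_max_right _ _, fun X hX => ha X ((le_max_left _ _).trans hX)⟩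
  obtain ⟨X₁, hX3, hX1⟩ := hX1
  refine ⟨X₁, hX3, fun X Y hX hY hYX => ?_⟩
  have hXY0 := hX1 X hX
  have hX3' : (3 : ℝ) ≤ X := by exact_mod_cast hX3.trans hX
  have hX0 : (0 : ℝ) < X := by linarith
  have hlogX : 0 < Real.log X := Real.log_pos (by linarith)
  have hY02 : (2 : ℝ) ≤ Y₀ := by exact_mod_cast hY₀
  set M := ⌊(X : ℝ) ^ (θ / 2)⌋₊ with hM
  set g : ℕ → ℝ := fun m => bw N₀ m * (4 / (Real.log X) ^ 2) with hg
  set T : Finset (Σ _ : ℕ, ℕ) := (Icc 2 M).sigma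
    (fun m => (Ioc (X / m) (X / m + (Y / m + 1))).filter Nat.Prime) with hTdef
  set S0 := (Ioc X (X + Y)).filter (fun n : ℕ => ¬ n.Prime ∧
      ∃ q ∈ n.primeFactors, (n : ℝ) / (q : ℝ) ≤ (X : ℝ) ^ (θ / 2)) with hS0
  have key : ∀ n : ℕ, n ∈ S0 → bw N₀ n ≠ 0 → ∃ mq : (Σ _ : ℕ, ℕ), mq.1 * mq.2 = n ∧
      mq ∈ T ∧ bw N₀ n ≤ g mq.1 := by
    intro n hn hbw
    rw [hS0, mem_filter, mem_Ioc] at hn
    obtain ⟨⟨hn1, hn2⟩, hnp, q, hq, hnq⟩ := hn
    have hqp := Nat.prime_of_mem_primeFactors hq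
    have hqd := Nat.dvd_of_mem_primeFactors hq
    obtain ⟨m, rfl⟩ := hqd
    rw [mul_comm q m] at hn1 hn2 hnp hq hnq hbw ⊢
    have hq0 : (0 : ℝ) < q := by exact_mod_cast hqp.pos
    have hmle : (m : ℝ) ≤ (X : ℝ) ^ (θ / 2) := by
      rw [Nat.cast_mul, mul_div_assoc, div_self hq0.ne', mul_one] at hnq
      exact hnq
    have hm0 : m ≠ 0 := by
      rintro rfl
      rw [zero_mul] at hn1
      exact absurd hn1 (Nat.not_lt_zero _)
    have hm1 : m ≠ 1 := by
      rintro rfl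
      rw [one_mul] at hnp
      exact hnp hqp
    have hm2 : 2 ≤ m := by omega
    have hmpos : 0 < m := by omega
    have hmM : m ≤ M := Nat.le_floor hmle
    refine ⟨⟨m, q⟩, rfl, ?_, ?_⟩
    · rw [hTdef, mem_sigma]
      refine ⟨mem_Icc.mpr ⟨hm2, hmM⟩, ?_⟩
      simp only [mem_filter, mem_Ioc]
      refine ⟨⟨?_, ?_⟩, hqp⟩
      · rw [Nat.div_lt_iff_lt_mul hmpos, mul_comm]; exact hn1
      · have h1 : q ≤ (X + Y) / m := by
          rw [Nat.le_div_iff_mul_le hmpos, mul_comm]; exact hn2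
        have h2 := Nat.add_div (a := X) (b := Y) hmpos
        split_ifs at h2 <;> omega
    · rw [bw_mul N₀ m q hqp hbw, hg]
      refine mul_le_mul_of_nonneg_left ?_ (bw_nonneg _ _)
      -- log q ≥ (1/2) log X
      have hmX : (X : ℝ) < m * q := by exact_mod_cast hn1
      have hm0' : (0 : ℝ) < m := by exact_mod_cast hmpos
      have h1 : Real.log X < Real.log m + Real.log q := by
        rw [← Real.log_mul hm0'.ne' hq0.ne']
        exact Real.log_lt_log hX0 hmX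
      have h2 : Real.log m ≤ (θ / 2) * Real.log X := by
        rw [← Real.log_rpow hX0]
        exact Real.log_le_log hm0' hmle
      have h3 : Real.log X / 2 ≤ Real.log q := by nlinarith
      have h4 : 0 < Real.log X / 2 := by positivity
      have h5 : (Real.log X / 2) ^ 2 ≤ (Real.log q) ^ 2 := by gcongr
      calc 1 / (Real.log q) ^ 2 ≤ 1 / (Real.log X / 2) ^ 2 :=
            one_div_le_one_div_of_le (by positivity) h5
        _ = 4 / (Real.log X) ^ 2 := by field_simp; norm_num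
  -- pass to pairs
  have hsum : ∑ n ∈ S0, bw N₀ n ≤ ∑ mq ∈ T, g mq.1 := by
    have hchoose : ∀ n : ℕ, ∃ mq : (Σ _ : ℕ, ℕ), n ∈ S0 → bw N₀ n ≠ 0 → mq.1 * mq.2 = n ∧
        mq ∈ T ∧ bw N₀ n ≤ g mq.1 := by
      intro n
      by_cases h : n ∈ S0 ∧ bw N₀ n ≠ 0
      · obtain ⟨mq, h1⟩ := key n h.1 h.2
        exact ⟨mq, fun _ _ => h1⟩
      · exact ⟨⟨0, 0⟩, fun h1 h2 => absurd ⟨h1, h2⟩ h⟩
    choose φ hφ using hchoose
    have h1 : ∑ n ∈ S0, bw N₀ n = ∑ n ∈ S0.filter (fun n => bw N₀ n ≠ 0), bw N₀ n := by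
      rw [Finset.sum_filter_ne_zero]
    rw [h1]
    have hinj : Set.InjOn φ (S0.filter (fun n => bw N₀ n ≠ 0) : Finset ℕ) := by
      intro a ha b hb hab
      rw [mem_coe, mem_filter] at ha hb
      rw [← (hφ a ha.1 ha.2).1, ← (hφ b hb.1 hb.2).1, hab]
    calc ∑ n ∈ S0.filter (fun n => bw N₀ n ≠ 0), bw N₀ n
        ≤ ∑ n ∈ S0.filter (fun n => bw N₀ n ≠ 0), g (φ n).1 :=
          Finset.sum_le_sum fun n hn => by
            rw [mem_filter] at hn
            exact (hφ n hn.1 hn.2).2.2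
      _ = ∑ mq ∈ (S0.filter (fun n => bw N₀ n ≠ 0)).image φ, g mq.1 :=
          (Finset.sum_image (f := fun mq : (Σ _ : ℕ, ℕ) => g mq.1) hinj).symm
      _ ≤ ∑ mq ∈ T, g mq.1 := by
          refine Finset.sum_le_sum_of_subset_of_nonneg ?_ ?_
          · intro mq hmq
            rw [mem_image] at hmq
            obtain ⟨n, hn, rfl⟩ := hmq
            rw [mem_filter] at hn
            exact (hφ n hn.1 hn.2).2.1
          · intro mq _ _
            exact mul_nonneg (bw_nonneg _ _) (by positivity)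
  refine hsum.trans ?_
  rw [hTdef, Finset.sum_sigma]
  have hterm : ∀ m ∈ Icc 2 M, ∑ _q ∈ (Ioc (X / m) (X / m + (Y / m + 1))).filter Nat.Prime, g m ≤
      48 * Y / (θ * (Real.log X) ^ 3) * (bw N₀ m / m) := by
    intro m hm
    rw [mem_Icc] at hm
    have hmpos : 0 < m := by omega
    have hm0' : (0 : ℝ) < m := by exact_mod_cast hmpos
    have hmle : (m : ℝ) ≤ (X : ℝ) ^ (θ / 2) := (Nat.cast_le.mpr hm.2).trans
      (Nat.floor_le (Real.rpow_nonneg hX0.le _))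
    have hYm : (X : ℝ) ^ (θ / 2) ≤ (Y : ℝ) / m := by
      rw [le_div_iff₀ hm0']
      calc (X : ℝ) ^ (θ / 2) * m ≤ (X : ℝ) ^ (θ / 2) * (X : ℝ) ^ (θ / 2) :=
            mul_le_mul_of_nonneg_left hmle (Real.rpow_nonneg hX0.le _)
        _ = (X : ℝ) ^ θ := by rw [← Real.rpow_add hX0]; congr 1; ring
        _ ≤ Y := hY
    have hlow : (Y : ℝ) / m ≤ ((Y / m + 1 : ℕ) : ℝ) := by
      rw [div_le_iff₀ hm0']
      have h1 : Y < m * (Y / m + 1) := Nat.lt_mul_div_succ Y hmpos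
      have h2 : Y ≤ (Y / m + 1) * m := by rw [mul_comm]; exact h1.le
      exact_mod_cast h2
    have hup : ((Y / m + 1 : ℕ) : ℝ) ≤ 2 * ((Y : ℝ) / m) := by
      have h1 : ((Y / m : ℕ) : ℝ) ≤ (Y : ℝ) / m := Nat.cast_div_le
      push_cast
      linarith
    have hY0' : Y₀ ≤ Y / m + 1 := by
      have : (Y₀ : ℝ) ≤ ((Y / m + 1 : ℕ) : ℝ) := by linarith
      exact_mod_cast this
    have hcount := hBT (X / m) (Y / m + 1) hY0'
    have hlogY : (θ / 2) * Real.log X ≤ Real.log ((Y / m + 1 : ℕ) : ℝ) := by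
      rw [← Real.log_rpow hX0]
      exact Real.log_le_log (Real.rpow_pos_of_pos hX0 _) (hYm.trans hlow)
    have hlogpos : 0 < (θ / 2) * Real.log X := by positivity
    have hcount2 : (((Ioc (X / m) (X / m + (Y / m + 1))).filter Nat.Prime).card : ℝ) ≤
        12 * Y / (θ * m * Real.log X) := by
      refine hcount.trans ?_
      calc 3 * ((Y / m + 1 : ℕ) : ℝ) / Real.log ((Y / m + 1 : ℕ) : ℝ)
          ≤ 3 * (2 * ((Y : ℝ) / m)) / ((θ / 2) * Real.log X) := by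
            apply div_le_div₀ (by positivity) (by linarith) hlogpos hlogY
        _ = 12 * Y / (θ * m * Real.log X) := by field_simp; ring
    rw [Finset.sum_const, nsmul_eq_mul, hg]
    calc (((Ioc (X / m) (X / m + (Y / m + 1))).filter Nat.Prime).card : ℝ) *
          (bw N₀ m * (4 / (Real.log X) ^ 2))
        ≤ 12 * Y / (θ * m * Real.log X) * (bw N₀ m * (4 / (Real.log X) ^ 2)) :=
          mul_le_mul_of_nonneg_right hcount2 (mul_nonneg (bw_nonneg _ _) (by positivity))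
      _ = 48 * Y / (θ * (Real.log X) ^ 3) * (bw N₀ m / m) := by field_simp; ring
  calc ∑ m ∈ Icc 2 M, ∑ _q ∈ (Ioc (X / m) (X / m + (Y / m + 1))).filter Nat.Prime, g m
      ≤ ∑ m ∈ Icc 2 M, 48 * Y / (θ * (Real.log X) ^ 3) * (bw N₀ m / m) :=
        Finset.sum_le_sum hterm
    _ = 48 * Y / (θ * (Real.log X) ^ 3) * ∑ m ∈ Icc 2 M, bw N₀ m / m := by
        rw [Finset.mul_sum]
    _ ≤ 48 * Y / (θ * (Real.log X) ^ 3) * (κ * θ / 48) :=
        mul_le_mul_of_nonneg_left (hT N₀ hN₀ M) (by positivity)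
    _ = κ * Y / (Real.log X) ^ 3 := by field_simp

end Pool.Agent.H932R4.MO
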