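import Pool.Agent.H197R3.SF.Stmts

/-! Task AL of project H197-SF (helper128). -/

set_option autoImplicit false

namespace Pool.Agent.H197R3.SF

open MeasureTheory Filter Topology Set
open scoped Pointwise Matrix ComplexConjugate ENNReal

namespace ALAux

theorem norm_wt (σ t : ℝ) : ‖wt σ t‖ = Real.exp (σ * |t|) := by
  unfold wt
  rw [Complex.norm_real, Real.norm_of_nonneg (Real.exp_pos _).le]

theorem wt_ne (σ t : ℝ) : wt σ t ≠ 0 := by
  rw [← norm_pos_iff, norm_wt]; exact Real.exp_pos _

theorem cont_wt (σ : ℝ) : Continuous (wt σ) := by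
  unfold wt; fun_prop

theorem cont_ch (ω : ℝ) : Continuous (ch ω) := by
  unfold ch; fun_prop

theorem norm_ch (ω t : ℝ) : ‖ch ω t‖ = 1 := by
  unfold ch
  rw [Complex.norm_exp]
  simp

theorem ch_add (ω s t : ℝ) : ch ω (s + t) = ch ω s * ch ω t := by
  unfold ch
  rw [← Complex.exp_add]
  congr 1
  push_cast
  ring

theorem integrable_tsum' {ι : Type} [Countable ι] {F : ι → ℝ → ℂ} (hF : ∀ i, Integrable (F i))
    (hs : Summable fun i => ∫ a, ‖F i a‖) : Integrable (fun t => ∑' i, F i t) := by
  refine ⟨(AEMeasurable.tsum fun i => (hF i).1.aemeasurable).aestronglyMeasurable, ?_⟩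
  have h1 : ∫⁻ a, ‖∑' i, F i a‖ₑ ≤ ∫⁻ a, ∑' i, ‖F i a‖ₑ :=
    lintegral_mono fun a => enorm_tsum_le_tsum_enorm
  rw [lintegral_tsum fun i => (hF i).1.enorm] at h1
  refine lt_of_le_of_lt h1 ?_
  have this (i : ι) : ∫⁻ a, ‖F i a‖ₑ = ‖∫ a, ‖F i a‖‖ₑ := by
    have h2 := ofReal_integral_norm_eq_lintegral_enorm (hF i)
    rw [← h2, Real.enorm_eq_ofReal (integral_nonneg fun a => norm_nonneg (F i a))]
  rw [funext this, lt_top_iff_ne_top]
  exact ENNReal.tsum_coe_ne_top_iff_summable.2 <| NNReal.summable_coe.1 hs.abs

end ALAux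

open ALAux in
theorem taskAL : TaskAL := by
  intro σ c f K E hσ hc hf hcK hfE
  have hcle : ∀ t : ℝ, ‖c t‖ ≤ ‖c t‖ * Real.exp (σ * |t|) := by
    intro t
    have : 1 ≤ Real.exp (σ * |t|) := Real.one_le_exp (by positivity)
    nlinarith [norm_nonneg (c t)]
  have hfm : AEStronglyMeasurable f volume := by
    have h1 : f = fun t => (f t * wt σ t) * (wt σ t)⁻¹ := by
      ext t
      rw [mul_assoc, mul_inv_cancel₀ (wt_ne σ t), mul_one]
    rw [h1]
    exact hf.1.mul (((cont_wt σ).inv₀ (wt_ne σ)).aestronglyMeasurable)
  have hfint : Integrable f := by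
    refine hf.mono hfm (Eventually.of_forall fun t => ?_)
    rw [norm_mul, norm_wt]
    have : 1 ≤ Real.exp (σ * |t|) := Real.one_le_exp (by positivity)
    nlinarith [norm_nonneg (f t)]
  have hD : (Function.support c).Countable := by
    refine hc.countable_support.mono ?_
    intro t ht
    rw [Function.mem_support] at ht ⊢
    exact mul_ne_zero (norm_ne_zero_iff.mpr ht) (Real.exp_pos _).ne'
  have : Countable (Function.support c) := hD.to_subtype
  have hshift : ∀ s : ℝ, AEStronglyMeasurable (fun t => f (t - s)) volume := fun s =>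
    hfm.comp_measurePreserving (measurePreserving_sub_right volume s)
  -- weighted terms
  have hwint : ∀ s : ℝ, Integrable (fun t => ‖f (t - s) * wt σ (t - s)‖) := fun s =>
    (hf.norm).comp_sub_right s
  have hbound : ∀ s t : ℝ, ‖c s * f (t - s) * wt σ t‖ ≤
      (‖c s‖ * Real.exp (σ * |s|)) * ‖f (t - s) * wt σ (t - s)‖ := by
    intro s t
    rw [norm_mul, norm_mul, norm_mul, norm_wt, norm_wt]
    have h1 : Real.exp (σ * |t|) ≤ Real.exp (σ * |s|) * Real.exp (σ * |t - s|) := by
      rw [← Real.exp_add, Real.exp_le_exp, ← mul_add]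
      refine mul_le_mul_of_nonneg_left ?_ hσ.le
      calc |t| = |s + (t - s)| := by ring_nf
        _ ≤ |s| + |t - s| := abs_add_le _ _
    calc ‖c s‖ * ‖f (t - s)‖ * Real.exp (σ * |t|)
        ≤ ‖c s‖ * ‖f (t - s)‖ * (Real.exp (σ * |s|) * Real.exp (σ * |t - s|)) :=
          mul_le_mul_of_nonneg_left h1 (by positivity)
      _ = _ := by ring
  have hF : ∀ s : ℝ, Integrable (fun t => c s * f (t - s) * wt σ t) := by
    intro s
    refine Integrable.mono' ((hwint s).const_mul (‖c s‖ * Real.exp (σ * |s|))) ?_ ?_
    · exact ((hshift s).const_mul (c s)).mul (cont_wt σ).aestronglyMeasurable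
    · exact Eventually.of_forall fun t => hbound s t
  have hFs : Summable (fun s : Function.support c => ∫ t, ‖c s * f (t - s) * wt σ t‖) := by
    have h1 : Summable (fun s : Function.support c =>
        (‖c s‖ * Real.exp (σ * |(s : ℝ)|)) * ∫ t, ‖f t * wt σ t‖) :=
      (hc.subtype _).mul_right _
    refine Summable.of_nonneg_of_le (fun s => integral_nonneg fun t => norm_nonneg _) ?_ h1
    intro s
    rw [← integral_sub_right_eq_self (fun t => ‖f t * wt σ t‖) (s : ℝ), ← integral_const_mul]
    exact integral_mono (hF s).norm ((hwint s).const_mul _) fun t => hbound s t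
  refine ⟨fun t => ∑' s : Function.support c, c s * f (t - s), ?_, ?_, ?_⟩
  · have h1 : (fun t : ℝ => (∑' s : Function.support c, c s * f (t - s)) * wt σ t) =
        fun t => ∑' s : Function.support c, c s * f (t - s) * wt σ t := by
      ext t
      rw [tsum_mul_right]
    rw [h1]
    exact integrable_tsum' (fun s => hF s) hFs
  · intro t ht
    have h1 : ∀ s : Function.support c, c s * f (t - s) = 0 := by
      intro s
      have hs : (s : ℝ) ∈ K := by
        by_contra h
        exact s.2 (hcK _ h)
      have h2 : t - s ∉ E := by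
        intro h
        apply ht
        rw [Set.mem_add]
        exact ⟨s, hs, t - s, h, by ring⟩
      rw [hfE _ h2, mul_zero]
    simp only [h1, tsum_zero]
  · intro ω
    have hG : ∀ s : ℝ, Integrable (fun t => c s * f (t - s) * ch ω t) := by
      intro s
      refine Integrable.mono' (((hfint.norm).comp_sub_right s).const_mul ‖c s‖) ?_ ?_
      · exact ((hshift s).const_mul (c s)).mul (cont_ch ω).aestronglyMeasurable
      · exact Eventually.of_forall fun t => by
          rw [norm_mul, norm_mul, norm_ch, mul_one]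
    have hGs : Summable (fun s : Function.support c => ∫ t, ‖c s * f (t - s) * ch ω t‖) := by
      have h1 : Summable (fun s : Function.support c =>
          (‖c s‖ * Real.exp (σ * |(s : ℝ)|)) * ∫ t, ‖f t‖) :=
        (hc.subtype _).mul_right _
      refine Summable.of_nonneg_of_le (fun s => integral_nonneg fun t => norm_nonneg _) ?_ h1
      intro s
      rw [← integral_sub_right_eq_self (fun t => ‖f t‖) (s : ℝ), ← integral_const_mul]
      refine integral_mono (hG s).norm ((hfint.norm.comp_sub_right _).const_mul _) fun t => ?_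
      simp only
      rw [norm_mul, norm_mul, norm_ch, mul_one]
      exact mul_le_mul_of_nonneg_right (hcle s) (norm_nonneg _)
    have h1 : (fun t : ℝ => (∑' s : Function.support c, c s * f (t - s)) * ch ω t) =
        fun t => ∑' s : Function.support c, c s * f (t - s) * ch ω t := by
      ext t
      rw [tsum_mul_right]
    rw [h1, ← integral_tsum_of_summable_integral_norm
      (F := fun (s : Function.support c) t => c s * f (t - s) * ch ω t) (fun s => hG s) hGs]
    have h2 : ∀ s : Function.support c, ∫ t, c s * f (t - s) * ch ω t =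
        (c s * ch ω s) * ∫ t, f t * ch ω t := by
      intro s
      have h3 : (fun t : ℝ => c s * f (t - s) * ch ω t) =
          fun t => (fun u : ℝ => (c s * ch ω s) * (f u * ch ω u)) (t - s) := by
        ext t
        have h4 : ch ω t = ch ω s * ch ω (t - s) := by
          rw [← ch_add]; congr 1; ring
        simp only
        rw [h4]
        ring
      rw [h3, integral_sub_right_eq_self (fun u : ℝ => (c s * ch ω s) * (f u * ch ω u)) (s : ℝ),
        integral_const_mul]
    simp only [h2]
    rw [tsum_mul_right]
    congr 1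
    refine tsum_subtype_eq_of_support_subset (f := fun t : ℝ => c t * ch ω t) ?_
    intro t ht
    rw [Function.mem_support] at ht ⊢
    intro h
    exact ht (by simp [h])

end Pool.Agent.H197R3.SF
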